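import Pool.Agent.Helper93.IA.StC

/-!
# Project IA, part C, module CN1: few non-edges in the matching graphs
-/

set_option autoImplicit false

namespace Pool.Agent.Helper30.IAC

open Finset
open Pool.Agent.Helper93.IA

private theorem card3 {X : Type} [DecidableEq X] (T A B C : Finset X)
    (h : ∀ x ∈ T, x ∈ A ∨ x ∈ B ∨ x ∈ C) :
    (T.card : ℝ) ≤ A.card + B.card + C.card := by
  have h1 : T ⊆ A ∪ B ∪ C := by
    intro x hx
    rcases h x hx with h | h | h
    · exact mem_union_left _ (mem_union_left _ h)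
    · exact mem_union_left _ (mem_union_right _ h)
    · exact mem_union_right _ h
  have h2 : T.card ≤ A.card + B.card + C.card :=
    (card_le_card h1).trans ((card_union_le _ _).trans
      (Nat.add_le_add_right (card_union_le _ _) _))
  exact_mod_cast h2

theorem hCN1 : StCN1 := by
  intro α β γ _ _ _ _ _ _ κ ρ η g' n m A QA LA S B QB C QC LC K U1 U2 W2 U3 W3 hR hM
  refine ⟨fun a ha b hab => ?_, fun a ha c hca => ?_⟩
  · have hb2 : b ∈ U2 := (hM.oS _ hab).2
    have h0 := card3 (univ.filter fun c => (c, a) ∈ K ∧ (b, c) ∉ hb B U2 W2 U3 W3)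
      (U3.filter fun c => (c, a) ∈ QC ∧ (b, c) ∉ B) (W3.filter fun c => (c, a) ∈ QC)
      (univ.filter fun c => (c, a) ∈ LC) (by
        intro c hc
        simp only [mem_filter, mem_univ, true_and] at hc ⊢
        obtain ⟨hcK, hcb⟩ := hc
        have hc3 : c ∈ U3 := (hM.oK _ hcK).1
        rw [mem_hb] at hcb
        rcases hM.inC _ hcK with h | h
        · by_cases hB : (b, c) ∈ B
          · by_cases hW : c ∈ W3
            · exact Or.inr (Or.inl ⟨hW, h⟩)
            · exact absurd ⟨hB, ⟨hb2, hc3⟩, fun hh => hW hh.2⟩ hcb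
          · exact Or.inl ⟨hc3, h, hB⟩
        · exact Or.inr (Or.inr h))
    have h1 := hR.nbB a ha b hb2
    have h2 := hR.wC a ha
    have h3 := hM.lC.2 a
    rw [d2_eq] at h3
    linarith
  · have hc3 : c ∈ U3 := (hM.oK _ hca).1
    have h0 := card3 (univ.filter fun b => (a, b) ∈ S ∧ (b, c) ∉ hb B U2 W2 U3 W3)
      (U2.filter fun b => (a, b) ∈ QA ∧ (b, c) ∉ B) (W2.filter fun b => (a, b) ∈ QA)
      (univ.filter fun b => (a, b) ∈ LA) (by
        intro b hb'
        simp only [mem_filter, mem_univ, true_and] at hb' ⊢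
        obtain ⟨hbS, hbc⟩ := hb'
        have hb2 : b ∈ U2 := (hM.oS _ hbS).2
        rw [mem_hb] at hbc
        rcases hM.inA _ hbS with h | h
        · by_cases hB : (b, c) ∈ B
          · by_cases hW : b ∈ W2
            · exact Or.inr (Or.inl ⟨hW, h⟩)
            · exact absurd ⟨hB, ⟨hb2, hc3⟩, fun hh => hW hh.1⟩ hbc
          · exact Or.inl ⟨hb2, h, hB⟩
        · exact Or.inr (Or.inr h))
    have h1 := hR.nbC a ha c hc3
    have h2 := hR.wA a ha
    have h3 := hM.lA.1 a
    rw [d1_eq] at h3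
    linarith

end Pool.Agent.Helper30.IAC
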